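import Mathlib

/-!
# Singular K3 surfaces over `ℚ` and the regulator on the transcendental part: data and known facts
-/

namespace Pool.Agent.N522.SK

/-- Singular K3 surfaces over `ℚ`, the transcendental part of their motivic cohomology, and the
regulator. -/
structure Theory where
  /-- singular K3 surfaces over `ℚ` -/
  Sur : Type
  /-- `H^3_M(X, ℚ(4))_tr` -/
  V : Sur → Type
  /-- group structure -/
  grp : ∀ X, AddCommGroup (V X)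
  /-- `ℚ`-structure -/
  mod : ∀ X, Module ℚ (V X)
  /-- the line `H_2(X(ℂ), ℚ)^-_tr` -/
  Hom2 : Sur → Type
  /-- group structure -/
  grpH : ∀ X, AddCommGroup (Hom2 X)
  /-- `ℚ`-structure -/
  modH : ∀ X, Module ℚ (Hom2 X)
  /-- `(γ, ξ) ↦ (2πi)^{-3} ⟨γ, reg ξ⟩` -/
  pair : ∀ X, Hom2 X →ₗ[ℚ] V X →ₗ[ℚ] ℝ
  /-- `L'(h^2_tr(X), -1)` -/
  L' : Sur → ℝ
  /-- isomorphisms of Chow motives `h^2_tr(X) ≅ h^2_tr(Y)` -/
  Iso : Sur → Sur → Type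
  /-- the induced isomorphism on motivic cohomology -/
  isoV : ∀ {X Y : Sur}, Iso X Y → V X ≃ V Y
  /-- the induced isomorphism on homology -/
  isoH : ∀ {X Y : Sur}, Iso X Y → Hom2 X ≃ Hom2 Y

attribute [instance] Theory.grp Theory.mod Theory.grpH Theory.modH

variable {T : Theory}

/-- Q1 for `X` -/
def Q1 (X : T.Sur) : Prop :=
  ∀ ξ : T.V X, ξ ≠ 0 → ∀ γ : T.Hom2 X, γ ≠ 0 → ∃ a : ℚ, a ≠ 0 ∧ T.pair X γ ξ = (a : ℝ) * T.L' X

/-- `H^3_M(X, ℚ(4))_tr` has dimension one. -/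
def OneDim (X : T.Sur) : Prop := ∃ ξ₀ : T.V X, ξ₀ ≠ 0 ∧ ∀ ξ : T.V X, ∃ c : ℚ, ξ = c • ξ₀

/-- Known facts. -/
structure Facts (T : Theory) : Prop where
  /-- the homology is a line -/
  line : ∀ X : T.Sur, ∃ γ₀ : T.Hom2 X, γ₀ ≠ 0 ∧ ∀ γ : T.Hom2 X, ∃ c : ℚ, γ = c • γ₀
  /-- `L'(h^2_tr(X), -1) ≠ 0` (functional equation) -/
  L'_ne : ∀ X : T.Sur, T.L' X ≠ 0
  /-- Deninger: for some motivic element the formula of Q1 holds -/
  deninger : ∀ X : T.Sur, ∃ (ξ₀ : T.V X) (γ₀ : T.Hom2 X) (a : ℚ), a ≠ 0 ∧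
    T.pair X γ₀ ξ₀ = (a : ℝ) * T.L' X
  /-- compatibility of the regulator with isomorphisms of motives -/
  iso_pair : ∀ (X Y : T.Sur) (f : T.Iso X Y) (γ : T.Hom2 X) (ξ : T.V X),
    T.pair Y (T.isoH f γ) (T.isoV f ξ) = T.pair X γ ξ
  iso_V_zero : ∀ (X Y : T.Sur) (f : T.Iso X Y), T.isoV f 0 = 0
  iso_H_zero : ∀ (X Y : T.Sur) (f : T.Iso X Y), T.isoH f 0 = 0
  /-- isomorphic motives have the same `L`-function -/
  iso_L : ∀ (X Y : T.Sur), T.Iso X Y → T.L' Y = T.L' X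

end Pool.Agent.N522.SK
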