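import Pool.Agent.N522.SK.Defs

/-!
# Q1 is the one-dimensionality of motivic cohomology
-/

namespace Pool.Agent.N522.SK

variable {T : Theory}

theorem q1_iff (F : Facts T) (X : T.Sur) : Q1 X ↔ OneDim X := by
  obtain ⟨ξ₀, γ₀, a₀, ha₀, h₀⟩ := F.deninger X
  have hne : (a₀ : ℝ) * T.L' X ≠ 0 := mul_ne_zero (by exact_mod_cast ha₀) (F.L'_ne X)
  have hγ₀ : γ₀ ≠ 0 := by
    rintro rfl
    rw [map_zero, LinearMap.zero_apply] at h₀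
    exact hne h₀.symm
  have hξ₀ : ξ₀ ≠ 0 := by
    rintro rfl
    rw [map_zero] at h₀
    exact hne h₀.symm
  constructor
  · intro h
    refine ⟨ξ₀, hξ₀, fun ξ => ?_⟩
    by_cases hξ : ξ = 0
    · exact ⟨0, by rw [hξ, zero_smul]⟩
    obtain ⟨a, -, ha'⟩ := h ξ hξ γ₀ hγ₀
    refine ⟨a / a₀, ?_⟩
    by_contra hcon
    have hsub : ξ - (a / a₀) • ξ₀ ≠ 0 := sub_ne_zero.mpr hcon
    obtain ⟨b, hb, hb'⟩ := h _ hsub γ₀ hγ₀
    rw [map_sub, map_smul, ha', h₀] at hb'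
    have h1 : (a : ℝ) * T.L' X - ((a / a₀ : ℚ) • ((a₀ : ℝ) * T.L' X)) = 0 := by
      rw [Rat.smul_def, Rat.cast_div]
      have : (a₀ : ℝ) ≠ 0 := by exact_mod_cast ha₀
      field_simp
      ring
    rw [h1] at hb'
    have : (b : ℝ) * T.L' X ≠ 0 := mul_ne_zero (by exact_mod_cast hb) (F.L'_ne X)
    exact this hb'.symm
  · rintro ⟨ξ₁, hξ₁, h₁⟩ ξ hξ γ hγ
    obtain ⟨γ₁, hγ₁, hl⟩ := F.line X
    obtain ⟨c, rfl⟩ := h₁ ξ
    obtain ⟨c₀, hc₀⟩ := h₁ ξ₀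
    obtain ⟨d, rfl⟩ := hl γ
    obtain ⟨d₀, hd₀⟩ := hl γ₀
    have hc : c ≠ 0 := fun h => hξ (by rw [h, zero_smul])
    have hd : d ≠ 0 := fun h => hγ (by rw [h, zero_smul])
    have hc₀' : c₀ ≠ 0 := fun h => hξ₀ (by rw [hc₀, h, zero_smul])
    have hd₀' : d₀ ≠ 0 := fun h => hγ₀ (by rw [hd₀, h, zero_smul])
    refine ⟨d * c / (d₀ * c₀) * a₀, mul_ne_zero (div_ne_zero (mul_ne_zero hd hc)
      (mul_ne_zero hd₀' hc₀')) ha₀, ?_⟩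
    rw [hc₀, hd₀] at h₀
    simp only [map_smul, LinearMap.smul_apply, Rat.smul_def] at h₀ ⊢
    push_cast
    have e1 : (c₀ : ℝ) ≠ 0 := by exact_mod_cast hc₀'
    have e2 : (d₀ : ℝ) ≠ 0 := by exact_mod_cast hd₀'
    rw [div_mul_eq_mul_div, div_mul_eq_mul_div, eq_div_iff (mul_ne_zero e2 e1)]
    linear_combination (d : ℝ) * (c : ℝ) * h₀

theorem q1_iso (F : Facts T) (X Y : T.Sur) (f : T.Iso X Y) : Q1 X ↔ Q1 Y := by
  constructor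
  · intro h ξ hξ γ hγ
    obtain ⟨ξ', rfl⟩ := (T.isoV f).surjective ξ
    obtain ⟨γ', rfl⟩ := (T.isoH f).surjective γ
    obtain ⟨a, ha, h'⟩ := h ξ' (fun h0 => hξ (by rw [h0, F.iso_V_zero])) γ'
      (fun h0 => hγ (by rw [h0, F.iso_H_zero]))
    exact ⟨a, ha, by rw [F.iso_pair, F.iso_L X Y f, h']⟩
  · intro h ξ hξ γ hγ
    obtain ⟨a, ha, h'⟩ := h (T.isoV f ξ) (fun h0 => hξ ((T.isoV f).injective
      (by rw [h0, F.iso_V_zero]))) (T.isoH f γ) (fun h0 => hγ ((T.isoH f).injective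
      (by rw [h0, F.iso_H_zero])))
    exact ⟨a, ha, by rw [← F.iso_pair X Y f, h', F.iso_L X Y f]⟩

end Pool.Agent.N522.SK
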